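import Pool.Agent.H91.RF.TargetsR
import Pool.Agent.H94.RD.KBOX
import Pool.Agent.H90.RD.Line

/-!
# MP_609556_an, full answer, module CYL: the linear equation in a long cylinder
-/

open MeasureTheory Set Filter Topology Metric
open Pool.Agent.H29.TF (hk P)
open Pool.Agent.H91.RD Pool.Agent.H91.RF Pool.Agent.H90.RD Pool.Agent.H94.RD

namespace Pool.Agent.H12.RF

variable {N : ℕ}

/-- sum of hyperbolic cosines of the coordinates -/
noncomputable def cs (k : ℝ) (x0 x : E N) : ℝ := ∑ i, Real.cosh (k * (x i - x0 i))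

theorem cs_contDiff (k : ℝ) (x0 : E N) : ContDiff ℝ 2 (cs k x0) := by
  unfold cs
  refine ContDiff.sum fun _ _ => ?_
  refine Real.contDiff_cosh.comp ?_
  fun_prop

theorem cs_pos (k : ℝ) (x0 x : E N) : 0 ≤ cs k x0 x :=
  Finset.sum_nonneg fun _ _ => (Real.cosh_pos _).le

theorem cs_line (k : ℝ) (x0 x v : E N) :
    fderiv ℝ (fderiv ℝ (cs k x0)) x v v = ∑ i, k ^ 2 * v i ^ 2 * Real.cosh (k * (x i - x0 i)) := by
  have hin : ∀ (i : Fin N) (t : ℝ),
      HasDerivAt (fun t : ℝ => k * (x i + t * v i - x0 i)) (k * v i) t := by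
    intro i t
    have := ((((hasDerivAt_id t).mul_const (v i)).const_add (x i)).sub_const (x0 i)).const_mul k
    simpa using this
  refine line_eq (cs_contDiff k x0).contDiffAt
    (p := fun t => ∑ i, Real.sinh (k * (x i + t * v i - x0 i)) * (k * v i)) ?_ ?_
  · intro t
    have h : (fun t : ℝ => cs k x0 (x + t • v)) =
        fun t => ∑ i, Real.cosh (k * (x i + t * v i - x0 i)) := by
      funext s; simp [cs]
    rw [h]
    exact HasDerivAt.fun_sum fun i _ => (hin i t).cosh
  · have h1 : HasDerivAt (fun t : ℝ => ∑ i, Real.sinh (k * (x i + t * v i - x0 i)) * (k * v i))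
        (∑ i, Real.cosh (k * (x i + 0 * v i - x0 i)) * (k * v i) * (k * v i)) 0 :=
      HasDerivAt.fun_sum fun i _ => ((hin i 0).sinh).mul_const _
    refine h1.congr_deriv (Finset.sum_congr rfl fun i _ => ?_)
    rw [zero_mul, add_zero]; ring

theorem cs_lap (k : ℝ) (x0 x : E N) :
    Laplacian.laplacian (cs k x0) x = k ^ 2 * cs k x0 x := by
  rw [lap_eq_sum]
  simp only [cs_line]
  rw [Finset.sum_comm]
  unfold cs
  rw [Finset.mul_sum]
  refine Finset.sum_congr rfl fun i _ => ?_
  have h : ∀ j : Fin N, (EuclideanSpace.basisFun (Fin N) ℝ j) i = if j = i then 1 else 0 := by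
    intro j
    rw [EuclideanSpace.basisFun_apply]
    by_cases hji : j = i
    · subst hji; simp
    · simp [hji, Ne.symm hji]
  simp only [h]
  simp

/-- some coordinate is large -/
theorem exists_coord (hN : 1 ≤ N) {R : ℝ} (hR : 0 < R) {X : E N} (h : R ≤ ‖X‖) :
    ∃ i, R / √N ≤ |X i| := by
  by_contra hc
  push Not at hc
  have hN0 : (0 : ℝ) < N := by exact_mod_cast hN
  have h1 : ‖X‖ ^ 2 < R ^ 2 := by
    rw [norm_sq_coord]
    have h2 : ∀ i ∈ (Finset.univ : Finset (Fin N)), X i ^ 2 < R ^ 2 / N := by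
      intro i _
      have h3 := hc i
      have h4 : |X i| ^ 2 < (R / √N) ^ 2 := pow_lt_pow_left₀ h3 (abs_nonneg _) (by norm_num)
      rwa [sq_abs, div_pow, Real.sq_sqrt hN0.le] at h4
    have hne : (Finset.univ : Finset (Fin N)).Nonempty := ⟨⟨0, hN⟩, Finset.mem_univ _⟩
    have h5 := Finset.sum_lt_sum_of_nonempty hne h2
    rw [Finset.sum_const, Finset.card_univ, Fintype.card_fin, nsmul_eq_mul] at h5
    have h6 : (N : ℝ) * (R ^ 2 / N) = R ^ 2 := by field_simp
    linarith
  have h2 := abs_lt_of_sq_lt_sq h1 hR.le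
  rw [abs_of_nonneg (norm_nonneg _)] at h2
  linarith

theorem cs_far (hN : 1 ≤ N) {k R : ℝ} (hk : 0 < k) (hR : 0 < R) {x0 x : E N}
    (h : R ≤ dist x x0) : Real.exp (k * R / √N) / 2 ≤ cs k x0 x := by
  rw [dist_eq_norm] at h
  obtain ⟨i, hi⟩ := exists_coord hN hR h
  have h1 : Real.cosh (k * (x i - x0 i)) ≤ cs k x0 x :=
    Finset.single_le_sum (f := fun i => Real.cosh (k * (x i - x0 i)))
      (fun j _ => (Real.cosh_pos _).le) (Finset.mem_univ i)
  refine le_trans ?_ h1
  have h2 : (x - x0) i = x i - x0 i := by simp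
  rw [h2] at hi
  rw [← Real.cosh_abs, abs_mul, abs_of_pos hk, Real.cosh_eq]
  have h3 : k * R / √N ≤ k * |x i - x0 i| := by
    rw [mul_div_assoc]; exact mul_le_mul_of_nonneg_left hi hk.le
  have h4 := Real.exp_le_exp.2 h3
  have h5 := Real.exp_pos (-(k * |x i - x0 i|))
  linarith

/-- the first barrier -/
noncomputable def Bq (k lam A a : ℝ) (x0 : E N) (t : ℝ) (x : E N) : ℝ :=
  A * Real.exp (lam * (t - a)) * cs k x0 x

theorem Bq_continuous (k lam A a : ℝ) (x0 : E N) :
    Continuous (fun p : ℝ × E N => Bq k lam A a x0 p.1 p.2) := by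
  unfold Bq
  refine Continuous.mul (by fun_prop) ?_
  exact (cs_contDiff k x0).continuous.comp continuous_snd

theorem Bq_contDiff (k lam A a : ℝ) (x0 : E N) (t : ℝ) : ContDiff ℝ 2 (Bq k lam A a x0 t) := by
  unfold Bq
  exact contDiff_const.mul (cs_contDiff k x0)

theorem Bq_lap (k lam A a : ℝ) (x0 : E N) (t : ℝ) (x : E N) :
    Laplacian.laplacian (Bq k lam A a x0 t) x = k ^ 2 * Bq k lam A a x0 t x := by
  have h : Bq k lam A a x0 t = (A * Real.exp (lam * (t - a))) • cs k x0 := by
    funext y; simp [Bq]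
  rw [h, InnerProductSpace.laplacian_smul _ (cs_contDiff k x0).contDiffAt, cs_lap]
  simp only [Pi.smul_apply, smul_eq_mul]
  ring

theorem Bq_time (k lam A a : ℝ) (x0 : E N) (t : ℝ) (x : E N) :
    HasDerivAt (fun s => Bq k lam A a x0 s x) (lam * Bq k lam A a x0 t x) t := by
  unfold Bq
  have h1 : HasDerivAt (fun s : ℝ => lam * (s - a)) lam t := by
    simpa using ((hasDerivAt_id t).sub_const a).const_mul lam
  have h2 := (h1.exp.const_mul A).mul_const (cs k x0 x)
  refine h2.congr_deriv ?_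
  ring

theorem Bq_nonneg {k lam A a : ℝ} (hA : 0 ≤ A) (x0 : E N) (t : ℝ) (x : E N) :
    0 ≤ Bq k lam A a x0 t x := by
  unfold Bq
  exact mul_nonneg (mul_nonneg hA (Real.exp_pos _).le) (cs_pos _ _ _)

/-- the negative of a solution, with zero source -/
theorem neg_linS {V z : ℝ → E N → ℝ} {a b : ℝ} (h : LinD V a b z) :
    LinS V (fun _ _ => 0) a b (fun t x => -z t x) where
  bdd := by
    obtain ⟨M, hM⟩ := h.bdd
    exact ⟨M, fun t ht x => by rw [abs_neg]; exact hM t ht x⟩
  meas := h.meas.neg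
  cont := h.cont.neg
  duh := by
    intro s t hs hst ht x
    have h1 : P (t - s) (fun y => -z s y) x = -P (t - s) (z s) x := by
      unfold P
      rw [← integral_neg]
      refine integral_congr_ae (Eventually.of_forall fun y => ?_)
      simp
    have h2 : ∀ r, P (t - r) (fun y => V r y * -z r y + 0) x =
        -P (t - r) (fun y => V r y * z r y) x := by
      intro r
      unfold P
      rw [← integral_neg]
      refine integral_congr_ae (Eventually.of_forall fun y => ?_)
      simp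
    have h3 := h.duh s t hs hst ht x
    simp only [h2]
    rw [intervalIntegral.integral_neg]
    change -z t x = P (t - s) (fun y => -z s y) x + _
    rw [h1, h3]
    ring

/-- the bump -/
noncomputable def ph (l : ℝ) (x0 : E N) (x : E N) : ℝ := Sb 1 l (0 : E N) x0 0 x

theorem ph_continuous (l : ℝ) (x0 : E N) : Continuous (ph l x0) := by
  unfold ph Sb
  refine continuous_const.mul (continuous_finsetProd _ fun i _ => ?_)
  have h1 : Continuous fun x : E N => x i - x0 i - (0 : E N) i * 0 := by fun_prop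
  refine (Real.continuous_exp.comp ?_).mul (Real.continuous_cos.comp ?_)
  · fun_prop
  · exact continuous_const.mul ((cl_continuous l).comp h1)

theorem ph_nonneg {l : ℝ} (hl : 0 < l) (x0 x : E N) : 0 ≤ ph l x0 x :=
  Sb_nonneg zero_le_one hl _ _ _ _

theorem ph_le_one {l : ℝ} (hl : 0 < l) (x0 x : E N) : ph l x0 x ≤ 1 := by
  have h0 : ‖(0 : E N)‖ ≤ 0 := by simp
  have h := Sb_le (κ := 1) (b := 0) zero_le_one hl (V := (0 : E N)) (x0 := x0) h0 0 x
  rw [zero_mul, zero_div, mul_zero, Real.exp_zero, mul_one] at h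
  exact h

theorem ph_out {l : ℝ} (hl : 0 < l) {x0 x : E N} (h : ¬ InBox l (0 : E N) x0 0 x) :
    ph l x0 x = 0 := Sb_out hl h

theorem ph_centre {l : ℝ} (hl : 0 < l) (x0 : E N) : ph l x0 x0 = 1 := by
  unfold ph Sb cl
  have : max (-l) (min l 0) = 0 := by
    rw [min_eq_right hl.le, max_eq_right (by linarith)]
  simp [this]

theorem box_dist (hN : 1 ≤ N) {l : ℝ} (hl : 0 < l) {x0 x : E N}
    (hx : InBox l (0 : E N) x0 0 x) : dist x x0 < √N * l := by
  have hN0 : (0 : ℝ) < N := by exact_mod_cast hN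
  by_contra hc
  rw [not_lt, dist_eq_norm] at hc
  obtain ⟨i, hi⟩ := exists_coord hN (by positivity) hc
  have h1 : √(N : ℝ) * l / √N = l := by field_simp
  have h2 := hx i
  simp only [PiLp.zero_apply, zero_mul, sub_zero] at h2
  rw [h1] at hi
  have h3 : (x - x0) i = x i - x0 i := by simp
  rw [h3] at hi
  linarith

/-- the bump near a point of the box -/
theorem ph_near {κ' l : ℝ} (hal : Real.pi / (2 * l) = κ') {x0 x : E N}
    (hx : InBox l (0 : E N) x0 0 x) : ph l x0 =ᶠ[𝓝 x] Gf 1 κ' (0 : E N) x0 0 := by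
  have h := (Sb_eventually (κ := 1) hx).1
  rw [hal] at h
  exact h

theorem Gf_lap (κ' : ℝ) (x0 x : E N) : Laplacian.laplacian (Gf 1 κ' (0 : E N) x0 0) x =
    -(N * κ' ^ 2 * Gf 1 κ' (0 : E N) x0 0 x) := by
  have h1 := Gf_eq 1 κ' (0 : E N) x0 0 x
  have h2 : deriv (fun s => Gf 1 κ' (0 : E N) x0 s x) 0 = 0 := by
    have : (fun s => Gf 1 κ' (0 : E N) x0 s x) = fun _ => Gf 1 κ' (0 : E N) x0 0 x := by
      funext s; unfold Gf; simp
    rw [this]; simp
  rw [h2, norm_zero] at h1
  linarith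

/-- the second barrier -/
noncomputable def B2 (k lam A a m0 μ l : ℝ) (x0 : E N) (t : ℝ) (x : E N) : ℝ :=
  Bq k lam A a x0 t x - m0 * Real.exp (-(μ * (t - a))) * ph l x0 x

theorem B2_continuous (k lam A a m0 μ l : ℝ) (x0 : E N) :
    Continuous (fun p : ℝ × E N => B2 k lam A a m0 μ l x0 p.1 p.2) := by
  unfold B2
  refine (Bq_continuous k lam A a x0).sub (Continuous.mul (by fun_prop) ?_)
  exact (ph_continuous l x0).comp continuous_snd

theorem B2_near {k lam A a m0 μ l κ' : ℝ} (hal : Real.pi / (2 * l) = κ') {x0 x : E N}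
    (hx : InBox l (0 : E N) x0 0 x) (t : ℝ) : B2 k lam A a m0 μ l x0 t =ᶠ[𝓝 x]
      Bq k lam A a x0 t - (m0 * Real.exp (-(μ * (t - a)))) • Gf 1 κ' (0 : E N) x0 0 := by
  filter_upwards [ph_near hal hx] with y hy
  simp only [B2, Pi.sub_apply, Pi.smul_apply, smul_eq_mul, hy]

theorem B2_lap {k lam A a m0 μ l κ' : ℝ} (hal : Real.pi / (2 * l) = κ') {x0 x : E N}
    (hx : InBox l (0 : E N) x0 0 x) (t : ℝ) :
    ContDiffAt ℝ 2 (B2 k lam A a m0 μ l x0 t) x ∧
    Laplacian.laplacian (B2 k lam A a m0 μ l x0 t) x = k ^ 2 * Bq k lam A a x0 t x +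
      m0 * Real.exp (-(μ * (t - a))) * (N * κ' ^ 2 * ph l x0 x) := by
  have hE := B2_near (k := k) (lam := lam) (A := A) (a := a) (m0 := m0) (μ := μ) hal hx t
  have hGc := Gf_contDiff 1 κ' (0 : E N) x0 0
  have hc2 : ContDiffAt ℝ 2 ((m0 * Real.exp (-(μ * (t - a)))) • Gf 1 κ' (0 : E N) x0 0) x :=
    (contDiff_const.smul hGc).contDiffAt
  refine ⟨((Bq_contDiff k lam A a x0 t).contDiffAt.sub hc2).congr_of_eventuallyEq hE, ?_⟩
  have h1 := (InnerProductSpace.laplacian_congr_nhds hE).self_of_nhds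
  rw [h1, ContDiffAt.laplacian_sub (Bq_contDiff k lam A a x0 t).contDiffAt hc2, Bq_lap,
    InnerProductSpace.laplacian_smul _ hGc.contDiffAt, Gf_lap, (ph_near hal hx).self_of_nhds]
  simp only [smul_eq_mul]
  ring

theorem B2_time (k lam A a m0 μ l : ℝ) (x0 : E N) (t : ℝ) (x : E N) :
    HasDerivAt (fun s => B2 k lam A a m0 μ l x0 s x) (lam * Bq k lam A a x0 t x +
      μ * (m0 * Real.exp (-(μ * (t - a)))) * ph l x0 x) t := by
  unfold B2
  have h1 : HasDerivAt (fun s : ℝ => -(μ * (s - a))) (-μ) t := by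
    simpa using (((hasDerivAt_id t).sub_const a).const_mul μ).fun_neg
  have h2 := (Bq_time k lam A a x0 t x).sub ((h1.exp.const_mul m0).mul_const (ph l x0 x))
  refine h2.congr_deriv ?_
  ring

theorem CYL (hMPV : T_MPV) : T_CYL := by
  intro N K C a b R ω k V z x0 hN hV hVc hz hzc hab hR hk hω hC hzb hpot hini
  have hN0 : (0 : ℝ) < N := by exact_mod_cast hN
  have hsN : 0 < √(N : ℝ) := Real.sqrt_pos.2 hN0
  set A : ℝ := 2 * C * Real.exp (-(k * R / √N)) with hA
  have hA0 : 0 ≤ A := by rw [hA]; positivity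
  set lam : ℝ := k ^ 2 + ω with hlam
  have hlam0 : 0 ≤ lam := by rw [hlam]; positivity
  have hfar : ∀ t ∈ Icc a b, ∀ x, R ≤ dist x x0 → C ≤ Bq k lam A a x0 t x := by
    intro t ht x hx
    have h1 := cs_far hN hk hR hx
    have h2 : 1 ≤ Real.exp (lam * (t - a)) :=
      Real.one_le_exp (mul_nonneg hlam0 (by linarith [ht.1]))
    have h3 : A * (Real.exp (k * R / √N) / 2) = C := by
      rw [hA]
      have : Real.exp (-(k * R / √N)) * Real.exp (k * R / √N) = 1 := by
        rw [← Real.exp_add]; simp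
      linear_combination C * this
    unfold Bq
    calc C = A * (Real.exp (k * R / √N) / 2) := h3.symm
      _ ≤ A * cs k x0 x := mul_le_mul_of_nonneg_left h1 hA0
      _ = A * 1 * cs k x0 x := by ring
      _ ≤ A * Real.exp (lam * (t - a)) * cs k x0 x :=
          mul_le_mul_of_nonneg_right (mul_le_mul_of_nonneg_left h2 hA0) (cs_pos _ _ _)
  have hzneg : LinS V (fun _ _ => 0) a b (fun t x => -z t x) := neg_linS hz
  have hle : ∀ t ∈ Icc a b, ∀ x, -z t x ≤ C := fun t ht x => (neg_le_abs _).trans (hzb t ht x)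
  have hout : ∀ x : E N, ‖x0‖ + R ≤ ‖x‖ → R ≤ dist x x0 := by
    intro x hx
    have := norm_sub_norm_le x x0
    rw [dist_eq_norm]; linarith
  -- first step
  have hB : ∀ t ∈ Icc a b, ∀ x, -z t x ≤ Bq k lam A a x0 t x := by
    refine hMPV N K a b (‖x0‖ + R) V (fun _ _ => 0) (fun t x => -z t x) (Bq k lam A a x0) hab hV
      hVc continuousOn_const ⟨0, by simp⟩ hzneg hzc.neg (Bq_continuous k lam A a x0).continuousOn
      ?_ ?_ ?_
    · intro t ht x hx
      exact (hle t ht x).trans (hfar t ht x (hout x hx))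
    · intro x
      by_cases hx : x ∈ closedBall x0 R
      · exact (by linarith [hini x hx] : -z a x ≤ 0).trans (Bq_nonneg hA0 x0 a x)
      · rw [mem_closedBall, not_le] at hx
        exact (hle a ⟨le_rfl, hab.le⟩ x).trans (hfar a ⟨le_rfl, hab.le⟩ x hx.le)
    · intro t ht x hlt
      have htI : t ∈ Icc a b := ⟨ht.1.le, ht.2⟩
      refine ⟨(Bq_contDiff k lam A a x0 t).contDiffAt, (Bq_time k lam A a x0 t x).differentiableAt,
        ?_⟩
      rw [Bq_lap, (Bq_time k lam A a x0 t x).deriv]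
      have hB0 := Bq_nonneg (k := k) (lam := lam) (a := a) hA0 x0 t x
      have hin : x ∈ closedBall x0 R := by
        by_contra hx
        rw [mem_closedBall, not_le] at hx
        have := (hle t htI x).trans (hfar t htI x hx.le)
        linarith
      have hVω : |V t x| ≤ ω := by
        rcases hpot t htI x hin with h | h
        · exact h
        · linarith
      have h1 : V t x * Bq k lam A a x0 t x ≤ ω * Bq k lam A a x0 t x :=
        mul_le_mul_of_nonneg_right ((le_abs_self _).trans hVω) hB0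
      rw [hlam]; linarith
  -- value at the centre
  have hcs0 : cs k x0 x0 = N := by unfold cs; simp
  have hBc : Bq k lam A a x0 b x0 =
      2 * N * C * Real.exp ((k ^ 2 + ω) * (b - a) - k * R / √N) := by
    unfold Bq
    rw [hcs0, hA, sub_eq_add_neg ((k ^ 2 + ω) * (b - a)), Real.exp_add]
    ring
  refine ⟨?_, ?_⟩
  · have := hB b ⟨hab.le, le_rfl⟩ x0
    rw [hBc] at this
    linarith
  -- second step
  intro κ' m0 hκ' hκR hm0 hm hVs
  set l : ℝ := Real.pi / (2 * κ') with hl
  have hpi := Real.pi_pos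
  have hl0 : 0 < l := by rw [hl]; positivity
  have hal : Real.pi / (2 * l) = κ' := by rw [hl]; field_simp
  set μ : ℝ := N * κ' ^ 2 + ω with hμ
  have hnot : ∀ t ∈ Icc a b, ∀ x, ¬ InBox l (0 : E N) x0 0 x →
      -z t x ≤ B2 k lam A a m0 μ l x0 t x := by
    intro t ht x hx
    unfold B2
    rw [ph_out hl0 hx, mul_zero, sub_zero]
    exact hB t ht x
  have hfin : ∀ t ∈ Icc a b, ∀ x, -z t x ≤ B2 k lam A a m0 μ l x0 t x := by
    refine hMPV N K a b (‖x0‖ + R) V (fun _ _ => 0) (fun t x => -z t x)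
      (B2 k lam A a m0 μ l x0) hab hV hVc continuousOn_const ⟨0, by simp⟩ hzneg hzc.neg
      (B2_continuous k lam A a m0 μ l x0).continuousOn ?_ ?_ ?_
    · intro t ht x hx
      refine hnot t ht x fun hc => ?_
      have h1 := box_dist hN hl0 hc
      have h2 := hout x hx
      linarith
    · intro x
      by_cases hx : InBox l (0 : E N) x0 0 x
      · have h1 := hm x (by rw [mem_closedBall]; exact (box_dist hN hl0 hx).le)
        have h2 := Bq_nonneg (k := k) (lam := lam) (a := a) hA0 x0 a x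
        have h3 : m0 * ph l x0 x ≤ m0 := by
          have := mul_le_mul_of_nonneg_left (ph_le_one hl0 x0 x) hm0
          linarith
        unfold B2
        rw [sub_self, mul_zero, neg_zero, Real.exp_zero, mul_one]
        linarith
      · exact hnot a ⟨le_rfl, hab.le⟩ x hx
    · intro t ht x hlt
      have htI : t ∈ Icc a b := ⟨ht.1.le, ht.2⟩
      have hx : InBox l (0 : E N) x0 0 x := by
        by_contra hc
        have := hnot t htI x hc
        linarith
      have htime := B2_time k lam A a m0 μ l x0 t x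
      obtain ⟨hcd, hlap⟩ := B2_lap (k := k) (lam := lam) (A := A) (a := a) (m0 := m0) (μ := μ)
        hal hx t
      refine ⟨hcd, htime.differentiableAt, ?_⟩
      rw [hlap, htime.deriv]
      have hxb : x ∈ closedBall x0 (√N * l) := by
        rw [mem_closedBall]; exact (box_dist hN hl0 hx).le
      have hVω := hVs t htI x hxb
      have hB0 := Bq_nonneg (k := k) (lam := lam) (a := a) hA0 x0 t x
      have hp0 : 0 ≤ m0 * Real.exp (-(μ * (t - a))) * ph l x0 x :=
        mul_nonneg (mul_nonneg hm0 (Real.exp_pos _).le) (ph_nonneg hl0 _ _)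
      have h1 : V t x * Bq k lam A a x0 t x ≤ ω * Bq k lam A a x0 t x :=
        mul_le_mul_of_nonneg_right ((le_abs_self _).trans hVω) hB0
      have h2 := mul_le_mul_of_nonneg_right ((neg_le_abs _).trans hVω) hp0
      have h3 : B2 k lam A a m0 μ l x0 t x = Bq k lam A a x0 t x -
        m0 * Real.exp (-(μ * (t - a))) * ph l x0 x := rfl
      rw [h3, hlam, hμ]
      linear_combination h1 + h2
  have h1 := hfin b ⟨hab.le, le_rfl⟩ x0
  unfold B2 at h1
  rw [ph_centre hl0, mul_one, hBc] at h1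
  linarith

end Pool.Agent.H12.RF
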