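import Pool.Agent.H91.RF.TargetsR
import Pool.Agent.H62.RF.SUPT

/-!
# MP_609556_an, full answer, module SUPZ: super-profile with convex tail

The construction is the one of module SUPT (helper62); the convexity of the tail is added.
-/

set_option autoImplicit false

open MeasureTheory Set Filter Topology
open Pool.Agent.H91.RD Pool.Agent.H91.RF Pool.Agent.H62.RF Pool.Agent.H62.RF.SUPT

namespace Pool.Agent.H12.RF

lemma aux2 {c lp κ η X p F : ℝ} (hX : 0 < X) (hκ : κ = c * lp - lp ^ 2)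
    (hη1 : η * (1 + |c - lp / 2|) ≤ lp ^ 2 / 2)
    (hp1 : (lp - η) * X ≤ p) (hp2 : p ≤ (lp + η) * X) (hF : F ≤ (κ + η) * X) :
    F ≤ (c - lp / 2) * p := by
  have h1 : (c - lp / 2) * lp * X - |c - lp / 2| * η * X ≤ (c - lp / 2) * p := by
    rcases le_total 0 (c - lp / 2) with h | h
    · rw [abs_of_nonneg h]
      have := mul_le_mul_of_nonneg_left hp1 h
      linarith
    · rw [abs_of_nonpos h]
      have := mul_le_mul_of_nonpos_left hp2 h
      linarith
  have h3 : (η * (1 + |c - lp / 2|)) * X ≤ lp ^ 2 / 2 * X := mul_le_mul_of_nonneg_right hη1 hX.le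
  rw [hκ] at hF
  nlinarith only [h1, h3, hF]

theorem SUPZ (hKAPL : T_KAPL) : T_SUPZ := by
  intro f K J bb cc yy hR hL hT j hj hκ4 kk hkk1 hkk2 ε hε
  obtain ⟨a, ha⟩ : ∃ a, a = bb j := ⟨_, rfl⟩
  obtain ⟨b, hb⟩ : ∃ b, b = bb (j + 1) := ⟨_, rfl⟩
  obtain ⟨c, hc⟩ : ∃ c, c = cc j := ⟨_, rfl⟩
  obtain ⟨y, hy⟩ : ∃ y, y = yy j := ⟨_, rfl⟩
  obtain ⟨κ, hκ⟩ : ∃ κ, κ = fp f (bb j) := ⟨_, rfl⟩
  have h : Cmp f K a b c y := by rw [ha, hb, hc, hy]; exact cmp_of_ter hL hT hj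
  have hK0 := hL.K0
  have hc0 := h.c0
  rw [← hκ, ← hc] at hκ4 hkk2
  rw [← hc] at hkk1
  obtain ⟨D, hD⟩ : ∃ D, D = √(c ^ 2 - 4 * κ) := ⟨_, rfl⟩
  have hD0 : 0 < D := by rw [hD]; exact Real.sqrt_pos.2 (by linarith)
  have hD2 : D ^ 2 = c ^ 2 - 4 * κ := by rw [hD]; exact Real.sq_sqrt (by linarith)
  obtain ⟨lp, hlp⟩ : ∃ lp, lp = (c + D) / 2 := ⟨_, rfl⟩
  have hlp0 : 0 < lp := by rw [hlp]; linarith
  have hκlp : κ = c * lp - lp ^ 2 := by
    rw [hlp]
    have : κ = (c ^ 2 - D ^ 2) / 4 := by linarith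
    rw [this]
    ring
  have hkklp : kk < lp := by
    have h1 : (2 * kk - c) ^ 2 < D ^ 2 := by
      rw [hD2]
      nlinarith only [hkk2]
    have h2 := lt_of_pow_lt_pow_left₀ 2 hD0.le h1
    rw [hlp]
    linarith
  -- slope at `a`
  have hslope : ∀ ε > 0, ∃ δ > 0, ∀ x, a < x → x < a + δ →
      (lp - ε) * (x - a) ≤ PP y b x ∧ PP y b x ≤ (lp + ε) * (x - a) := by
    intro ε hε
    have := hKAPL f K J bb cc yy hR hL hT j hj ε hε
    rw [← ha, ← hb, ← hc, ← hy] at this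
    rw [ha, ← hκ, ← hD, ← hlp, ← ha] at this
    exact this
  -- the top
  obtain ⟨ℓ, hℓ⟩ : ∃ ℓ, ℓ = (max (b - ε) a + b) / 2 := ⟨_, rfl⟩
  have hmaxb : max (b - ε) a < b := max_lt (by linarith) h.ab
  have hℓb : ℓ < b := by rw [hℓ]; linarith
  have hℓa : a < ℓ := by rw [hℓ]; linarith [le_max_right (b - ε) a, h.ab]
  have hℓε : b - ε < ℓ := by rw [hℓ]; linarith [le_max_left (b - ε) a]
  -- bound of f / P
  obtain ⟨δ1, hδ1, hn1⟩ := hslope (lp / 2) (by positivity)
  obtain ⟨β, hβ0, hβ⟩ := h.lowP hℓb (show 0 < lp / 2 by positivity) hδ1 (fun x h1 h2 => by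
    have := (hn1 x h1 h2).1
    linarith)
  obtain ⟨C1, hC1⟩ : ∃ C1, C1 = K / β := ⟨_, rfl⟩
  have hC10 : 0 < C1 := by rw [hC1]; positivity
  have hfP : ∀ x, a < x → x ≤ ℓ → |f x / PP y b x| ≤ C1 := by
    intro x h1 h2
    have hP := h.PPpos (x := x) ⟨h1, by linarith⟩
    rw [abs_div, abs_of_pos hP, div_le_iff₀ hP]
    refine (h.fX h1.le).trans ?_
    have h3 := mul_le_mul_of_nonneg_left (hβ x h1 h2) hC10.le
    have h4 : C1 * (β * (x - a)) = K * (x - a) := by rw [hC1]; field_simp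
    linarith
  -- near `a`
  obtain ⟨a0, ha0⟩ : ∃ a0, a0 = D / 2 := ⟨_, rfl⟩
  have ha00 : 0 < a0 := by rw [ha0]; positivity
  obtain ⟨η, hη⟩ : ∃ η, η = lp * (D / 2) / (2 + |c - a0|) := ⟨_, rfl⟩
  have h2c : 0 < 2 + |c - a0| := by
    have := abs_nonneg (c - a0)
    linarith
  have hη0 : 0 < η := by rw [hη]; positivity
  have hη1 : η * (2 + |c - a0|) ≤ lp * (D / 2) := by
    rw [hη, div_mul_cancel₀ _ h2c.ne']
  obtain ⟨δ2, hδ2, hn2⟩ := hslope η hη0
  obtain ⟨δ3, hδ3, hn3⟩ := slope_f hR h.a0 (h.ab.trans_le h.b1) h.fa (κ := κ)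
    (by rw [hκ, ha]) hη0
  obtain ⟨x1, hx1⟩ : ∃ x1, x1 = a + min (min δ2 δ3) (ℓ - a) / 2 := ⟨_, rfl⟩
  have hmin0 : 0 < min (min δ2 δ3) (ℓ - a) := lt_min (lt_min hδ2 hδ3) (by linarith)
  have hx1a : a < x1 := by rw [hx1]; linarith
  have hx1ℓ : x1 < ℓ := by
    rw [hx1]
    have := min_le_right (min δ2 δ3) (ℓ - a)
    linarith
  have hx12 : x1 < a + δ2 := by
    rw [hx1]
    have h1 := min_le_left (min δ2 δ3) (ℓ - a)
    have h2 := min_le_left δ2 δ3
    linarith
  have hx13 : x1 < a + δ3 := by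
    rw [hx1]
    have h1 := min_le_left (min δ2 δ3) (ℓ - a)
    have h2 := min_le_right δ2 δ3
    linarith
  have hnear : ∀ x, a < x → x ≤ x1 → a0 ≤ c - 2 * (f x / PP y b x) := by
    intro x h1 h2
    have hP := h.PPpos (x := x) ⟨h1, by linarith⟩
    have h3 := aux1 (X := x - a) (by linarith) hη0 hκlp hlp ha0 hη1
      (hn2 x h1 (by linarith)).1 (hn2 x h1 (by linarith)).2 (hn3 x h1 (by linarith))
    have h4 : 2 * (f x / PP y b x) ≤ c - a0 := by
      rw [← mul_div_assoc, div_le_iff₀ hP]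
      exact h3
    linarith
  -- constants
  obtain ⟨Pm, hPm⟩ : ∃ Pm, Pm = β * (x1 - a) := ⟨_, rfl⟩
  have hPm0 : 0 < Pm := by
    rw [hPm]
    have : 0 < x1 - a := by linarith
    positivity
  have hfar : ∀ x, x1 ≤ x → x ≤ ℓ → Pm ≤ PP y b x := by
    intro x h1 h2
    refine le_trans ?_ (hβ x (by linarith) h2)
    rw [hPm]
    gcongr
  obtain ⟨Λ0, hΛ0⟩ : ∃ Λ0, Λ0 = (3 * C1 + 1) / Pm := ⟨_, rfl⟩
  have hΛ00 : 0 < Λ0 := by rw [hΛ0]; positivity
  have hΛPm : 3 * C1 + 1 ≤ Λ0 * Pm := by rw [hΛ0, div_mul_cancel₀ _ hPm0.ne']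
  obtain ⟨Δ, hΔ⟩ : ∃ Δ, Δ = lp - kk := ⟨_, rfl⟩
  have hΔ0 : 0 < Δ := by rw [hΔ]; linarith
  obtain ⟨sm, hsm⟩ : ∃ sm, sm = min (min (1 / 4) c) (min (a0 / (4 * C1)) (Δ / (4 * lp))) :=
    ⟨_, rfl⟩
  have hsm0 : 0 < sm := by rw [hsm]; positivity
  have hsm1 : sm ≤ 1 / 4 := by
    rw [hsm]; exact (min_le_left _ _).trans (min_le_left _ _)
  have hsm2 : sm ≤ c := by
    rw [hsm]; exact (min_le_left _ _).trans (min_le_right _ _)
  have hsm3 : C1 * (4 / 3) * sm ≤ a0 / 2 := by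
    have h1 : sm ≤ a0 / (4 * C1) := by
      rw [hsm]; exact (min_le_right _ _).trans (min_le_left _ _)
    calc C1 * (4 / 3) * sm ≤ C1 * (4 / 3) * (a0 / (4 * C1)) := by gcongr
      _ = a0 / 3 := by field_simp
      _ ≤ a0 / 2 := by linarith
  have hsm4 : sm * lp ≤ Δ / 4 := by
    have h1 : sm ≤ Δ / (4 * lp) := by
      rw [hsm]; exact (min_le_right _ _).trans (min_le_right _ _)
    calc sm * lp ≤ Δ / (4 * lp) * lp := by gcongr
      _ = Δ / 4 := by field_simp
  obtain ⟨s0, hs0⟩ : ∃ s0, s0 = sm * Real.exp (-(Λ0 * (b - a))) := ⟨_, rfl⟩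
  have hba : 0 < b - a := by linarith [h.ab]
  have hs00 : 0 < s0 := by rw [hs0]; positivity
  have hs0sm : s0 ≤ sm := by
    rw [hs0]
    have : Real.exp (-(Λ0 * (b - a))) ≤ 1 := Real.exp_le_one_iff.2 (by
      have : 0 < Λ0 * (b - a) := by positivity
      linarith)
    exact mul_le_of_le_one_right hsm0.le this
  obtain ⟨s, hs⟩ : ∃ s : ℝ → ℝ, s = fun x => s0 * Real.exp (Λ0 * (x - a)) := ⟨_, rfl⟩
  have hsd : ∀ x, HasDerivAt s (Λ0 * s x) x := by
    intro x
    have h1 : HasDerivAt (fun x : ℝ => Λ0 * (x - a)) (Λ0 * 1) x :=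
      ((hasDerivAt_id x).sub_const a).const_mul Λ0
    have h2 := h1.exp.const_mul s0
    rw [hs]
    refine h2.congr_deriv ?_
    ring
  have hslow : ∀ x, a < x → s0 ≤ s x := by
    intro x h1
    rw [hs]
    have : 1 ≤ Real.exp (Λ0 * (x - a)) := Real.one_le_exp (by
      have : 0 < x - a := by linarith
      positivity)
    exact le_mul_of_one_le_right hs00.le this
  have hsup : ∀ x, x < b → s x ≤ sm := by
    intro x h1
    rw [hs, hs0]
    simp only
    rw [mul_assoc, ← Real.exp_add]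
    refine mul_le_of_le_one_right hsm0.le (Real.exp_le_one_iff.2 ?_)
    have : Λ0 * (x - b) ≤ 0 := mul_nonpos_of_nonneg_of_nonpos hΛ00.le (by linarith)
    linarith
  obtain ⟨σ, hσ⟩ : ∃ σ, σ = s0 * min (a0 / 2) 1 / 2 := ⟨_, rfl⟩
  have hmin1 : 0 < min (a0 / 2) 1 := by positivity
  have hσ0 : 0 < σ := by rw [hσ]; positivity
  have hσc : σ ≤ c / 2 := by
    rw [hσ]
    have h1 : s0 * min (a0 / 2) 1 ≤ s0 * 1 :=
      mul_le_mul_of_nonneg_left (min_le_right _ _) hs00.le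
    linarith
  -- the function
  obtain ⟨g, hg⟩ : ∃ g : ℝ → ℝ, g = fun x => (1 - s x) * PP y b x := ⟨_, rfl⟩
  obtain ⟨g', hg'⟩ : ∃ g' : ℝ → ℝ, g' = fun x =>
    (1 - s x) * (c - f x / PP y b x) - Λ0 * s x * PP y b x := ⟨_, rfl⟩
  have hgd : ∀ x, a < x → x < b → HasDerivAt g (g' x) x := by
    intro x h1 h2
    have h3 := ((hsd x).const_sub 1).mul (h.PPd ⟨h1, h2⟩)
    rw [hg, hg']
    refine h3.congr_deriv ?_
    ring
  have hfc : Continuous f := by
    have : LipschitzWith ⟨K, hK0.le⟩ f := LipschitzWith.of_dist_le_mul fun x z => by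
      rw [Real.dist_eq, Real.dist_eq]
      exact hL.lip x z
    exact this.continuous
  have hsc : Continuous s := by rw [hs]; fun_prop
  have hPc : ContinuousOn (PP y b) (Ioo a b) := h.PPc.mono Ioo_subset_Icc_self
  have hgc : ContinuousOn g' (Ioo a b) := by
    have h1 : ContinuousOn (fun x => f x / PP y b x) (Ioo a b) :=
      hfc.continuousOn.div hPc fun x hx => (h.PPpos hx).ne'
    have h2 : ContinuousOn (fun x => 1 - s x) (Ioo a b) := (continuous_const.sub hsc).continuousOn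
    have h3 : ContinuousOn (fun x => Λ0 * s x) (Ioo a b) :=
      (continuous_const.mul hsc).continuousOn
    rw [hg']
    exact (h2.mul (continuousOn_const.sub h1)).sub (h3.mul hPc)
  have hgpos : ∀ x, a < x → x < b → 0 < g x := by
    intro x h1 h2
    rw [hg]
    have h3 := h.PPpos (x := x) ⟨h1, h2⟩
    have h4 := hsup x h2
    have h5 : 0 < 1 - s x := by linarith
    exact mul_pos h5 h3
  have hgkey : ∀ x, a < x → x ≤ ℓ → g' x + f x / g x ≤ c - 2 * σ := by
    intro x h1 h2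
    have h3 := h.PPpos (x := x) ⟨h1, by linarith⟩
    have h4 := hslow x h1
    have h5 := hsup x (by linarith)
    have h6 : C1 * (4 / 3) * s x ≤ a0 / 2 := le_trans (by gcongr) hsm3
    have h7 := key (f' := f x) (Pm := Pm) h3 (hs00.trans_le h4) (h5.trans hsm1) hc0 hC10.le
      (hfP x h1 h2) hΛ00.le h6 (by
        rcases le_total x x1 with h8 | h8
        · exact Or.inl (hnear x h1 h8)
        · exact Or.inr ⟨hfar x h8 h2, hΛPm⟩)
    rw [hg, hg']
    simp only
    refine h7.trans ?_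
    have h8 : s0 * min (a0 / 2) 1 ≤ s x * min (a0 / 2) 1 :=
      mul_le_mul_of_nonneg_right h4 hmin1.le
    rw [hσ]
    linarith
  -- bound of the derivative
  obtain ⟨v, hv, hmax⟩ := isCompact_Icc.exists_isMaxOn ⟨a, le_rfl, h.ab.le⟩ h.PPc
  obtain ⟨Bg, hBg⟩ : ∃ Bg, Bg = c + C1 + Λ0 * (PP y b v) := ⟨_, rfl⟩
  have hPv : 0 ≤ PP y b v := PP_nonneg v
  have hBg0 : 0 < Bg := by rw [hBg]; positivity
  have hg'b : ∀ x, a < x → x ≤ ℓ → |g' x| ≤ Bg := by
    intro x h1 h2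
    have h3 := h.PPpos (x := x) ⟨h1, by linarith⟩
    have h4 := hs00.trans_le (hslow x h1)
    have h5 := hsup x (by linarith)
    have h6 : PP y b x ≤ PP y b v := hmax ⟨h1.le, by linarith⟩
    have h7 := hfP x h1 h2
    have h8 : |c - f x / PP y b x| ≤ c + C1 := by
      refine (abs_sub _ _).trans ?_
      rw [abs_of_pos hc0]
      linarith
    rw [hg']
    simp only
    calc |(1 - s x) * (c - f x / PP y b x) - Λ0 * s x * PP y b x|
        ≤ |(1 - s x) * (c - f x / PP y b x)| + |Λ0 * s x * PP y b x| := abs_sub _ _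
      _ = (1 - s x) * |c - f x / PP y b x| + Λ0 * s x * PP y b x := by
          rw [abs_mul, abs_of_pos (by linarith : 0 < 1 - s x),
            abs_of_pos (mul_pos (mul_pos hΛ00 h4) h3)]
      _ ≤ 1 * (c + C1) + Λ0 * 1 * PP y b v := by
          gcongr
          · linarith
          · linarith
      _ = Bg := by rw [hBg]; ring
  -- sign of the derivative near `a`
  obtain ⟨η2, hη2⟩ : ∃ η2, η2 = min lp (lp ^ 2 / 2 / (1 + |c - lp / 2|)) := ⟨_, rfl⟩
  have h1c : 0 < 1 + |c - lp / 2| := by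
    have := abs_nonneg (c - lp / 2)
    linarith
  have hη20 : 0 < η2 := by rw [hη2]; positivity
  have hη2l : η2 ≤ lp := by rw [hη2]; exact min_le_left _ _
  have hη21 : η2 * (1 + |c - lp / 2|) ≤ lp ^ 2 / 2 := by
    have h1 : η2 ≤ lp ^ 2 / 2 / (1 + |c - lp / 2|) := by rw [hη2]; exact min_le_right _ _
    rwa [le_div_iff₀ h1c] at h1
  obtain ⟨δ6, hδ6, hn6⟩ := hslope η2 hη20
  obtain ⟨δ7, hδ7, hn7⟩ := slope_f hR h.a0 (h.ab.trans_le h.b1) h.fa (κ := κ)
    (by rw [hκ, ha]) hη20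
  obtain ⟨δ5, hδ5⟩ : ∃ δ5, δ5 = min (min δ6 δ7) (min (ℓ - a) (1 / (2 * Λ0))) := ⟨_, rfl⟩
  have hδ50 : 0 < δ5 := by
    rw [hδ5]
    have : 0 < ℓ - a := by linarith
    positivity
  have hδ56 : δ5 ≤ δ6 := by rw [hδ5]; exact (min_le_left _ _).trans (min_le_left _ _)
  have hδ57 : δ5 ≤ δ7 := by rw [hδ5]; exact (min_le_left _ _).trans (min_le_right _ _)
  have hδ5ℓ : δ5 ≤ ℓ - a := by rw [hδ5]; exact (min_le_right _ _).trans (min_le_left _ _)
  have hδ5Λ : δ5 ≤ 1 / (2 * Λ0) := by rw [hδ5]; exact (min_le_right _ _).trans (min_le_right _ _)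
  have hgsign : ∀ x, a < x → x < a + δ5 → 0 ≤ g' x := by
    intro x h1 h2
    have hX : 0 < x - a := by linarith
    have hP := h.PPpos (x := x) ⟨h1, by linarith⟩
    have h3 := aux2 (X := x - a) hX hκlp hη21
      (hn6 x h1 (by linarith)).1 (hn6 x h1 (by linarith)).2 (hn7 x h1 (by linarith))
    have h4 : lp / 2 ≤ c - f x / PP y b x := by
      have : f x / PP y b x ≤ c - lp / 2 := by
        rw [div_le_iff₀ hP]
        exact h3
      linarith
    have h5 := hs00.trans_le (hslow x h1)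
    have h6 := hsup x (by linarith)
    have h7 : PP y b x ≤ 2 * lp * (x - a) := by
      refine (hn6 x h1 (by linarith)).2.trans ?_
      exact mul_le_mul_of_nonneg_right (by linarith) hX.le
    have h8 : Λ0 * s x * PP y b x ≤ lp / 4 := by
      calc Λ0 * s x * PP y b x ≤ Λ0 * (1 / 4) * (2 * lp * (x - a)) := by
            gcongr
            exact h6.trans hsm1
        _ ≤ Λ0 * (1 / 4) * (2 * lp * (1 / (2 * Λ0))) := by
            gcongr
            linarith
        _ = lp / 4 := by field_simp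
    rw [hg']
    simp only
    have h9 : 3 / 4 * (lp / 2) ≤ (1 - s x) * (c - f x / PP y b x) := by
      refine mul_le_mul (by linarith) h4 (by positivity) (by linarith)
    linarith
  -- extension
  obtain ⟨p, p', hpd, hpc, hpg, hpl, hpu, _, _⟩ := extend hℓa
    (fun x h1 h2 => hgd x h1 (by linarith)) (hgc.mono (fun x hx => ⟨hx.1, by linarith [hx.2]⟩))
    (hgpos ℓ hℓa hℓb) le_rfl
  have hgℓ := hgpos ℓ hℓa hℓb
  have hppos : ∀ x, a < x → 0 < p x := by
    intro x h1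
    rcases le_total x ℓ with h2 | h2
    · rw [(hpg x h2).1]
      exact hgpos x h1 (by linarith)
    · exact lt_of_lt_of_le (by positivity) (hpl x h2)
  -- the flow
  obtain ⟨δ4, hδ4, hn4⟩ := hslope (Δ / 4) (by positivity)
  obtain ⟨δ, hδ⟩ : ∃ δ, δ = min δ4 (ℓ - a) := ⟨_, rfl⟩
  have hδ0 : 0 < δ := by rw [hδ]; exact lt_min hδ4 (by linarith)
  have hδ41 : δ ≤ δ4 := by rw [hδ]; exact min_le_left _ _
  have hδ42 : δ ≤ ℓ - a := by rw [hδ]; exact min_le_right _ _
  have hkk0 : 0 < kk := by linarith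
  obtain ⟨q, C, hC1', hq2, hq0, hqa, hqd, hqd2, hqℓ, hql, hqu⟩ := flow_tails (a := a) (ℓ := ℓ)
    (r := kk) (Λ := lp + Δ / 4) (B := g ℓ + g ℓ) (δ := δ) hℓa hpd hpc hppos
    (fun x hx => hpu x hx) hδ0 hkk0.le
    (by
      intro x h1 h2
      rw [(hpg x (by linarith)).1, hg]
      have h3 := (hn4 x h1 (by linarith)).1
      have h4 : 0 < x - a := by linarith
      have h5 := hsup x (by linarith)
      have hP := h.PPpos (x := x) ⟨h1, by linarith⟩
      simp only
      calc kk * (x - a) ≤ ((1 - sm) * (lp - Δ / 4)) * (x - a) := by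
            refine mul_le_mul_of_nonneg_right ?_ h4.le
            have h6 : 0 < sm * (Δ / 4) := by positivity
            have h7 : (1 - sm) * (lp - Δ / 4) = lp - Δ / 4 - sm * lp + sm * (Δ / 4) := by ring
            rw [h7]
            linarith
        _ = (1 - sm) * ((lp - Δ / 4) * (x - a)) := by ring
        _ ≤ (1 - sm) * PP y b x := mul_le_mul_of_nonneg_left h3 (by linarith)
        _ ≤ (1 - s x) * PP y b x := mul_le_mul_of_nonneg_right (by linarith) hP.le)
    (by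
      intro x h1 h2
      rw [(hpg x (by linarith)).1, hg]
      have h3 := (hn4 x h1 (by linarith)).2
      have h4 := hs00.trans_le (hslow x h1)
      have hP := h.PPpos (x := x) ⟨h1, by linarith⟩
      simp only
      refine le_trans ?_ h3
      exact mul_le_of_le_one_left hP.le (by linarith))
  have hC0 : 0 < C := by linarith
  refine ⟨c - σ, σ, max C Bg, lp + Δ / 4, C / (δ5 * kk), q, by linarith, by rw [← hc]; linarith,
    hσ0, hC1'.trans (le_max_left _ _), by positivity, by positivity, hq2,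
    by rw [← hb, hq0]; exact hℓε,
    by rw [← ha, hq0]; exact hℓa, by rw [← hb, hq0]; exact hℓb, fun z hz => ?_⟩
  have hz1 := hqa z
  have hz2 := hqℓ z hz
  have hz3 := hppos (q z) hz1
  have hz4 := hpg (q z) hz2
  have hz5 := hgkey (q z) hz1 hz2
  refine ⟨?_, ?_, ?_, ?_, ?_, ?_⟩
  · rw [hqd z]
    linarith
  · rw [hqd2 z, hqd z, abs_neg, abs_of_pos hz3]
    have h3 : f (q z) = (f (q z) / p (q z)) * p (q z) := by field_simp
    have h4 : p' (q z) + f (q z) / p (q z) ≤ c - 2 * σ := by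
      rw [hz4.1, hz4.2]
      exact hz5
    have h5 : (p' (q z) + f (q z) / p (q z)) * p (q z) ≤ (c - 2 * σ) * p (q z) :=
      mul_le_mul_of_nonneg_right h4 hz3.le
    linarith
  · rw [hqd2 z, hqd z, abs_mul, abs_neg, hz4.2]
    exact mul_le_mul_of_nonneg_right ((hg'b (q z) hz1 hz2).trans (le_max_right _ _))
      (abs_nonneg _)
  · intro hzZ
    rw [hqd2 z, hz4.2]
    refine mul_nonneg (hgsign (q z) hz1 ?_) hz3.le
    have h1 : C / δ5 ≤ kk * z := by
      rw [div_le_iff₀ (by positivity)] at hzZ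
      rw [div_le_iff₀ hδ50]
      linarith
    have h2 := Real.add_one_le_exp (kk * z)
    have h3 : C / δ5 < Real.exp (kk * z) := by linarith
    rw [div_lt_iff₀ hδ50] at h3
    have h4 : C * Real.exp (-(kk * z)) < δ5 := by
      have h5 := mul_lt_mul_of_pos_right h3 (Real.exp_pos (-(kk * z)))
      have h6 : Real.exp (kk * z) * δ5 * Real.exp (-(kk * z)) = δ5 := by
        have : Real.exp (kk * z) * Real.exp (-(kk * z)) = 1 := by
          rw [← Real.exp_add]; simp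
        calc _ = (Real.exp (kk * z) * Real.exp (-(kk * z))) * δ5 := by ring
          _ = δ5 := by rw [this, one_mul]
      linarith
    have h5 := hqu z hz
    linarith
  · rw [← ha]
    refine le_trans ?_ (hql z hz)
    refine mul_le_mul_of_nonneg_right ?_ (Real.exp_pos _).le
    exact inv_anti₀ (by linarith) (le_max_left _ _)
  · rw [← ha]
    refine (hqu z hz).trans ?_
    exact mul_le_mul_of_nonneg_right (le_max_left _ _) (Real.exp_pos _).le

end Pool.Agent.H12.RF
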